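import Mathlib
import Pool.Agent.R174.TilD

/-!
# Homogeneous tilings of type [3.4.3.4.4]: there are continuum many

For every binary sequence `s` there is a tiling `T s` of the plane by rectangles of size
`2^k × 1` (`k ∈ ℤ`, height `k ≤ y ≤ k+1`), every rectangle standing on two rectangles of half
the width.  All these tilings are homogeneous of type `[3.4.3.4.4]` and a homeomorphism
carrying one to another one matches, from some tile on, the left/right turns of the
sequences of ancestors; so every topological equivalence class contains only countably many of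
them.
-/

open Set Metric Topology

namespace Pool.Agent.Results.MP_d3ce6f_co.UncountablyMany

open Pool.Agent.R174.Til

lemma topEquiv_refl (T : Set (Set ℂ)) : TopEquiv T T :=
  ⟨Homeomorph.refl ℂ, by
    have : (fun X : Set ℂ => (Homeomorph.refl ℂ) '' X) = id := by
      funext X; simp
    rw [this]; exact bijOn_id T⟩

lemma topEquiv_symm {T T' : Set (Set ℂ)} (h : TopEquiv T T') : TopEquiv T' T := by
  obtain ⟨h, hT⟩ := h
  exact ⟨h.symm, symm_bij h hT⟩

lemma topEquiv_trans {T T' T'' : Set (Set ℂ)} (h : TopEquiv T T') (h' : TopEquiv T' T'') :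
    TopEquiv T T'' := by
  obtain ⟨h, hT⟩ := h
  obtain ⟨h', hT'⟩ := h'
  refine ⟨h.trans h', ?_⟩
  have : (fun X : Set ℂ => (h.trans h') '' X) = (fun X : Set ℂ => h' '' X) ∘ (fun X => h '' X) := by
    funext X
    exact Set.image_comp h' h X
  rw [this]
  exact hT'.comp hT

/-- the candidates for the sequence of a tiling equivalent to `T t` -/
def cand (t : ℕ → Bool) (p : ℤ × ℤ × Bool) : ℕ → Bool :=
  fun i => xor (decide (sides t p.1 p.2.1 i = 1)) p.2.2

lemma bool_key : ∀ a a' x y b : Bool, x = xor a b → ((x ≠ y) ↔ (a ≠ a')) → y = xor a' b := by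
  decide

lemma bit_ne (x y : Bool) : ((if x = true then (1:ℤ) else 0) ≠ (if y = true then 1 else 0)) ↔
    x ≠ y := by
  cases x <;> cases y <;> simp

lemma int_ne {a b : ℤ} (ha : a = 0 ∨ a = 1) (hb : b = 0 ∨ b = 1) :
    a ≠ b ↔ decide (a = 1) ≠ decide (b = 1) := by
  rcases ha with rfl | rfl <;> rcases hb with rfl | rfl <;> simp

lemma determined {s t : ℕ → Bool} (h : TopEquiv (T s) (T t)) : ∃ p, s = cand t p := by
  obtain ⟨h, hT⟩ := h
  obtain ⟨k, m, hkm⟩ := sides_rel h hT
  refine ⟨⟨k, m, xor (decide (sides t k m 0 = 1)) (s 0)⟩, ?_⟩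
  funext i
  induction i with
  | zero =>
    unfold cand
    cases s 0 <;> simp
  | succ i ih =>
    have h1 := hkm i
    have b1 : sides t k m i = 0 ∨ sides t k m i = 1 := side_bd _ _ _
    have b2 : sides t k m (i+1) = 0 ∨ sides t k m (i+1) = 1 := side_bd _ _ _
    rw [sides_zero, sides_zero, bit_ne, int_ne b1 b2] at h1
    exact bool_key _ _ _ _ _ ih h1

lemma class_countable (t : ℕ → Bool) : {s | TopEquiv (T s) (T t)}.Countable := by
  apply (Set.countable_range (cand t)).mono
  intro s hs
  obtain ⟨p, hp⟩ := determined hs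
  exact ⟨p, hp.symm⟩

/-- topological equivalence of the tilings `T s` -/
def eqv : Setoid (ℕ → Bool) where
  r s t := TopEquiv (T s) (T t)
  iseqv := ⟨fun _ => topEquiv_refl _, topEquiv_symm, topEquiv_trans⟩

lemma card_quot : Cardinal.mk (Quotient eqv) = Cardinal.continuum := by
  have hX : Cardinal.mk (ℕ → Bool) = Cardinal.continuum := by simp
  apply le_antisymm
  · rw [← hX]; exact Cardinal.mk_quotient_le
  · by_contra hlt
    push Not at hlt
    have h1 : Cardinal.mk (ℕ → Bool) ≤ Cardinal.mk (Quotient eqv) * Cardinal.aleph0 := by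
      rw [← Cardinal.mk_congr (Equiv.sigmaFiberEquiv (Quotient.mk eqv)), Cardinal.mk_sigma,
        ← Cardinal.sum_const']
      apply Cardinal.sum_le_sum
      intro q
      obtain ⟨t, rfl⟩ := Quotient.exists_rep q
      rw [Cardinal.mk_le_aleph0_iff]
      have hc := class_countable t
      have : {s' | Quotient.mk eqv s' = Quotient.mk eqv t} = {s' | TopEquiv (T s') (T t)} := by
        ext s'
        exact Quotient.eq (r := eqv)
      rw [← this] at hc
      exact hc.to_subtype
    rw [hX] at h1
    exact absurd h1 (not_le.2 (Cardinal.mul_lt_of_lt Cardinal.aleph0_le_continuum hlt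
      Cardinal.aleph0_lt_continuum))

/-- **Answer to Q1: yes.**  There is a family of continuum many (so uncountably many)
homogeneous tilings of type `[3.4.3.4.4]` that are pairwise not topologically equivalent. -/
theorem result : ∃ F : Set (Set (Set ℂ)), Cardinal.mk F = Cardinal.continuum ∧ ¬ F.Countable ∧
    (∀ T ∈ F, IsHomogeneous34344 T) ∧
    ∀ T ∈ F, ∀ T' ∈ F, T ≠ T' → ¬ TopEquiv T T' := by
  have hout : ∀ q : Quotient eqv, Quotient.mk eqv q.out = q := Quotient.out_eq
  have hinj : ∀ q q' : Quotient eqv, TopEquiv (T q.out) (T q'.out) → q = q' := by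
    intro q q' h
    rw [← hout q, ← hout q']
    exact Quotient.sound h
  have hcard : Cardinal.mk (Set.range (fun q : Quotient eqv => T q.out)) = Cardinal.continuum := by
    rw [Cardinal.mk_range_eq, card_quot]
    intro q q' h
    apply hinj
    have h' : T q.out = T q'.out := h
    rw [h']
    exact topEquiv_refl _
  refine ⟨Set.range (fun q : Quotient eqv => T q.out), hcard, ?_, ?_, ?_⟩
  · intro hc
    have := Cardinal.mk_le_aleph0_iff.2 hc.to_subtype
    rw [hcard] at this
    exact absurd this (not_le.2 Cardinal.aleph0_lt_continuum)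
  · rintro _ ⟨q, rfl⟩
    exact T_homogeneous _
  · rintro _ ⟨q, rfl⟩ _ ⟨q', rfl⟩ hne h
    apply hne
    have := hinj q q' h
    rw [this]

end Pool.Agent.Results.MP_d3ce6f_co.UncountablyMany
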